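import Pool.Agent.BEH.Stmts

/-! Squad BEH (MP_be01ff_an), row LOW: the first eigenvalue moves by at least `2ε/5`. -/

namespace Pool.Agent.BEH.H24

open Set Filter Topology MeasureTheory
open scoped InnerProductSpace ENNReal
open Pool.Agent.BE01 Pool.Agent.BEL

noncomputable section

section abstract_part

variable {H K : Type*} [NormedAddCommGroup H] [InnerProductSpace ℝ H] [NormedAddCommGroup K]
  [InnerProductSpace ℝ K]

theorem hb_ext (b : HilbertBasis ℕ ℝ H) {x y : H} (h : ∀ k, ⟪b k, x⟫_ℝ = ⟪b k, y⟫_ℝ) : x = y := by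
  apply b.repr.injective
  apply lp.ext
  funext k
  rw [b.repr_apply_apply, b.repr_apply_apply, h k]

theorem hb_sum (b : HilbertBasis ℕ ℝ H) (x : H) :
    HasSum (fun k => ⟪b k, x⟫_ℝ ^ 2) (‖x‖ ^ 2) := by
  have h := b.hasSum_inner_mul_inner x x
  rw [real_inner_self_eq_norm_sq] at h
  have h2 : (fun i => ⟪x, b i⟫_ℝ * ⟪b i, x⟫_ℝ) = fun k => ⟪b k, x⟫_ℝ ^ 2 := by
    funext k
    rw [real_inner_comm, pow_two]
  rwa [h2] at h

theorem iota_e (b : HilbertBasis ℕ ℝ H) (e : HilbertBasis ℕ ℝ K) (ι : K →L[ℝ] H) (om : ℕ → ℝ)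
    (hrel : ∀ (k : ℕ) (G : K), ⟪b k, ι G⟫_ℝ = (om k)⁻¹ * ⟪e k, G⟫_ℝ) (k : ℕ) :
    ι (e k) = (om k)⁻¹ • b k := by
  apply hb_ext b
  intro j
  rw [hrel, inner_smul_right, orthonormal_iff_ite.1 b.orthonormal j k,
    orthonormal_iff_ite.1 e.orthonormal j k]
  by_cases h : j = k
  · rw [h]
  · rw [if_neg h, mul_zero, mul_zero]

/-- the decomposition of a function along the first eigenfunctions -/
theorem core (b : HilbertBasis ℕ ℝ H) (e : HilbertBasis ℕ ℝ K) (ι : K →L[ℝ] H) (om : ℕ → ℝ)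
    (hpos : ∀ k, 0 < om k) (hmono : Monotone om)
    (hrel : ∀ (k : ℕ) (G : K), ⟪b k, ι G⟫_ℝ = (om k)⁻¹ * ⟪e k, G⟫_ℝ) (N : ℕ)
    (h100 : 100 * om 0 ^ 2 ≤ om N ^ 2) (G W : K) (c : Fin N → ℝ)
    (hc : ∀ i : Fin N, c i = ⟪b i, ι G⟫_ℝ)
    (hW : W = G - ∑ i : Fin N, (c i * om i) • e i) :
    ι W = ι G - ∑ i : Fin N, c i • b i ∧ ∑ i, c i ^ 2 + ‖ι W‖ ^ 2 = ‖ι G‖ ^ 2 ∧
      99 / 100 * ‖W‖ ^ 2 ≤ ‖G‖ ^ 2 - om 0 ^ 2 * ‖ι G‖ ^ 2 ∧
      100 * om 0 ^ 2 * ‖ι W‖ ^ 2 ≤ ‖W‖ ^ 2 := by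
  have hon : Orthonormal ℝ (fun i : Fin N => e (i : ℕ)) :=
    e.orthonormal.comp _ Fin.val_injective
  have hbon : Orthonormal ℝ (fun i : Fin N => b (i : ℕ)) :=
    b.orthonormal.comp _ Fin.val_injective
  have hιW : ι W = ι G - ∑ i : Fin N, c i • b i := by
    rw [hW, map_sub, map_sum]
    congr 1
    refine Finset.sum_congr rfl fun i _ => ?_
    rw [map_smul, iota_e b e ι om hrel, smul_smul, mul_assoc, mul_inv_cancel₀ (hpos _).ne', mul_one]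
  have hce : ∀ i : Fin N, ⟪e (i : ℕ), G⟫_ℝ = c i * om i := by
    intro i
    rw [hc, hrel, mul_comm, ← mul_assoc, mul_inv_cancel₀ (hpos _).ne', one_mul]
  have hor : ∀ i : Fin N, ⟪e (i : ℕ), W⟫_ℝ = 0 := by
    intro i
    have h1 := hon.inner_right_fintype (fun i : Fin N => c i * om i) i
    rw [hW, inner_sub_right, hce]
    rw [h1]
    ring
  have horb : ∀ i : Fin N, ⟪b (i : ℕ), ι W⟫_ℝ = 0 := by
    intro i
    rw [hrel, hor, mul_zero]
  -- Pythagoras in the space of gradients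
  have hG : ‖G‖ ^ 2 = ∑ i : Fin N, (c i * om i) ^ 2 + ‖W‖ ^ 2 := by
    have h1 : G = (∑ i : Fin N, (c i * om i) • e (i : ℕ)) + W := by
      rw [hW]
      abel
    have h2 : ⟪∑ i : Fin N, (c i * om i) • e (i : ℕ), W⟫_ℝ = 0 := by
      rw [sum_inner]
      refine Finset.sum_eq_zero fun i _ => ?_
      rw [inner_smul_left, hor, mul_zero]
    have h3 : ‖∑ i : Fin N, (c i * om i) • e (i : ℕ)‖ ^ 2 = ∑ i : Fin N, (c i * om i) ^ 2 := by
      rw [← real_inner_self_eq_norm_sq,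
        hon.inner_sum (fun i : Fin N => c i * om i) (fun i : Fin N => c i * om i)]
      refine Finset.sum_congr rfl fun i _ => ?_
      rw [conj_trivial, pow_two]
    calc ‖G‖ ^ 2 = ‖(∑ i : Fin N, (c i * om i) • e (i : ℕ)) + W‖ ^ 2 := by rw [← h1]
      _ = _ := by rw [norm_add_sq_real, h2, h3]; ring
  -- Pythagoras for the functions
  have hιG : ∑ i, c i ^ 2 + ‖ι W‖ ^ 2 = ‖ι G‖ ^ 2 := by
    have h1 : ι G = (∑ i : Fin N, c i • b (i : ℕ)) + ι W := by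
      rw [hιW]
      abel
    have h2 : ⟪∑ i : Fin N, c i • b (i : ℕ), ι W⟫_ℝ = 0 := by
      rw [sum_inner]
      refine Finset.sum_eq_zero fun i _ => ?_
      rw [inner_smul_left, horb, mul_zero]
    have h3 : ‖∑ i : Fin N, c i • b (i : ℕ)‖ ^ 2 = ∑ i : Fin N, c i ^ 2 := by
      rw [← real_inner_self_eq_norm_sq,
        hbon.inner_sum (fun i : Fin N => c i) (fun i : Fin N => c i)]
      refine Finset.sum_congr rfl fun i _ => ?_
      rw [conj_trivial, pow_two]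
    calc ∑ i, c i ^ 2 + ‖ι W‖ ^ 2 = ‖(∑ i : Fin N, c i • b (i : ℕ)) + ι W‖ ^ 2 := by
          rw [norm_add_sq_real, h2, h3]; ring
      _ = ‖ι G‖ ^ 2 := by rw [← h1]
  -- the gap
  have hgap : om N ^ 2 * ‖ι W‖ ^ 2 ≤ ‖W‖ ^ 2 := by
    have h1 : HasSum (fun k => om N ^ 2 * ⟪b k, ι W⟫_ℝ ^ 2) (om N ^ 2 * ‖ι W‖ ^ 2) :=
      (hb_sum b (ι W)).mul_left _
    refine hasSum_le (fun k => ?_) h1 (hb_sum e W)
    by_cases hk : k < N
    · have h2 := horb ⟨k, hk⟩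
      have h3 := hor ⟨k, hk⟩
      simp only at h2 h3
      rw [h2, h3]
      simp
    · have h2 : om N ≤ om k := hmono (not_lt.1 hk)
      have h3 : om N ^ 2 ≤ om k ^ 2 := pow_le_pow_left₀ (hpos N).le h2 2
      rw [hrel, mul_pow, inv_pow, ← mul_assoc]
      have h4 : om N ^ 2 * (om k ^ 2)⁻¹ ≤ 1 := by
        rw [← div_eq_mul_inv, div_le_one (pow_pos (hpos k) 2)]
        exact h3
      calc om N ^ 2 * (om k ^ 2)⁻¹ * ⟪e k, W⟫_ℝ ^ 2 ≤ 1 * ⟪e k, W⟫_ℝ ^ 2 :=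
            mul_le_mul_of_nonneg_right h4 (sq_nonneg _)
        _ = ⟪e k, W⟫_ℝ ^ 2 := one_mul _
  have h100' : 100 * om 0 ^ 2 * ‖ι W‖ ^ 2 ≤ ‖W‖ ^ 2 :=
    le_trans (mul_le_mul_of_nonneg_right h100 (sq_nonneg _)) hgap
  refine ⟨hιW, hιG, ?_, h100'⟩
  have hsum : om 0 ^ 2 * ∑ i, c i ^ 2 ≤ ∑ i : Fin N, (c i * om i) ^ 2 := by
    rw [Finset.mul_sum]
    refine Finset.sum_le_sum fun i _ => ?_
    have h2 : om 0 ^ 2 ≤ om (i : ℕ) ^ 2 :=
      pow_le_pow_left₀ (hpos 0).le (hmono (Nat.zero_le _)) 2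
    rw [mul_pow, mul_comm (c i ^ 2)]
    exact mul_le_mul_of_nonneg_right h2 (sq_nonneg _)
  rw [hG, ← hιG]
  nlinarith

end abstract_part

/-- the values of a finite linear combination of classes -/
theorem coe_sum {α ι : Type*} [MeasurableSpace α] {μ : Measure α} (s : Finset ι) (c : ι → ℝ)
    (u : ι → Lp ℝ 2 μ) (f : ι → α → ℝ) (h : ∀ i, f i =ᵐ[μ] u i) :
    ((∑ i ∈ s, c i • u i : Lp ℝ 2 μ) : α → ℝ) =ᵐ[μ] fun y => ∑ i ∈ s, c i * f i y := by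
  classical
  induction s using Finset.induction_on with
  | empty =>
    filter_upwards [Lp.coeFn_zero ℝ 2 μ] with y hy
    rw [Finset.sum_empty, hy, Finset.sum_empty]
    rfl
  | insert a s ha ih =>
    rw [Finset.sum_insert ha]
    filter_upwards [Lp.coeFn_add (c a • u a) (∑ i ∈ s, c i • u i), Lp.coeFn_smul (c a) (u a), ih,
      h a] with y h1 h2 h3 h4
    rw [h1, Pi.add_apply, h2, Pi.smul_apply, h3, Finset.sum_insert ha, smul_eq_mul, h4]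

/-- row LOW -/
theorem low (hext : ExtStmt) (hdua : DuaStmt) : LowStmt := by
  intro d Ω ι b e om N B f J w D hOk hN h100 hBm hfb hD
  obtain ⟨hdom, hemb, hgrf, hspec⟩ := hOk
  have hom0 : 0 < om 0 := hspec.pos 0
  have hom2 : 0 < om 0 ^ 2 := pow_pos hom0 2
  obtain ⟨P, hP⟩ : ∃ P : ℝ, P = (∑ j, |w j|) * (N * |B|) := ⟨_, rfl⟩
  have hP0 : 0 ≤ P := by
    rw [hP]
    exact mul_nonneg (Finset.sum_nonneg fun j _ => abs_nonneg _)
      (mul_nonneg (Nat.cast_nonneg _) (abs_nonneg _))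
  have hN0 : (0 : ℝ) ≤ N := Nat.cast_nonneg _
  obtain ⟨Q, hQ⟩ : ∃ Q : ℝ, Q = P * (D * Real.sqrt (volume.real Ω)) + 1 := ⟨_, rfl⟩
  have hDv : 0 ≤ D * Real.sqrt (volume.real Ω) := mul_nonneg hD.le (Real.sqrt_nonneg _)
  have hQ1 : 1 ≤ Q := by
    rw [hQ]
    have := mul_nonneg hP0 hDv
    linarith
  have hQ0 : 0 < Q := by linarith
  obtain ⟨q, hq⟩ : ∃ q : ℝ, q = 1 / (200 * Q) := ⟨_, rfl⟩
  have hq0 : 0 < q := by rw [hq]; positivity
  have hPN : 0 ≤ P * N := mul_nonneg hP0 hN0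
  refine ⟨1 / (200 * (P * N + 1)), min (om 0 ^ 2 / 100) (30 * om 0 ^ 2 * q ^ 2), by positivity,
    lt_min (by positivity) (by positivity), ?_⟩
  intro x R κ ε r η ψ g h hκ hκ0 hε hε0 hSys ι' b' e' om' hOk' hup
  obtain ⟨hdom', hemb', hgrf', hspec'⟩ := hOk'
  have hsub : Hl Ω x r ⊆ Ω := sdiff_subset
  obtain ⟨E, F, hE, -, hEF⟩ := hext d Ω (Hl Ω x r) ι ι' hdom hdom' hsub hemb hemb'
  have hom'0 : 0 < om' 0 := hspec'.pos 0
  -- the first eigenfunction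
  obtain ⟨V, hV⟩ : ∃ V : VV (Hl Ω x r), V = om' 0 • e' 0 := ⟨_, rfl⟩
  have hιV : ι' V = b' 0 := by
    rw [hV, map_smul, iota_e b' e' ι' om' hspec'.rel, smul_smul, mul_inv_cancel₀ hom'0.ne',
      one_smul]
  have hVn : ‖V‖ ^ 2 = om' 0 ^ 2 := by
    rw [hV, norm_smul, e'.orthonormal.1 0, mul_one, Real.norm_eq_abs, sq_abs]
  obtain ⟨G, hG⟩ : ∃ G : VV Ω, G = F V := ⟨_, rfl⟩
  have hGn : ‖G‖ ^ 2 = om' 0 ^ 2 := by rw [hG, F.norm_map, hVn]
  have hιG : ι G = E (b' 0) := by rw [hG, hEF, hιV]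
  have hιGn : ‖ι G‖ ^ 2 = 1 := by
    rw [hιG, E.norm_map, b'.orthonormal.1 0, one_pow]
  obtain ⟨c, hc⟩ : ∃ c : Fin N → ℝ, ∀ i : Fin N, c i = ⟪b i, ι G⟫_ℝ := ⟨_, fun _ => rfl⟩
  obtain ⟨W, hW⟩ : ∃ W : VV Ω, W = G - ∑ i : Fin N, (c i * om i) • e i := ⟨_, rfl⟩
  obtain ⟨h1, h2, h3, h4⟩ := core b e ι om hspec.pos hspec.mono hspec.rel N h100 G W c hc hW
  rw [hιGn] at h2 h3
  rw [hGn, mul_one] at h3
  have hsqc : sq c = ∑ i, c i ^ 2 := rfl
  rw [← hsqc] at h2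
  have hsq1 : sq c ≤ 1 := by
    have := sq_nonneg ‖ι W‖
    linarith
  have hc1 : ∀ i, |c i| ≤ 1 := by
    intro i
    rw [abs_le_one_iff_mul_self_le_one]
    have h5 : c i ^ 2 ≤ sq c :=
      Finset.single_le_sum (f := fun i => c i ^ 2) (fun i _ => sq_nonneg _) (Finset.mem_univ i)
    nlinarith
  have hcs : ∑ i, |c i| ≤ N := by
    calc ∑ i, |c i| ≤ ∑ _i : Fin N, (1 : ℝ) := Finset.sum_le_sum fun i _ => hc1 i
      _ = N := by simp
  have hlc : ∀ y, |lc f c y| ≤ N * |B| := by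
    intro y
    unfold lc
    calc |∑ i, c i * f i y| ≤ ∑ i, |c i * f i y| := Finset.abs_sum_le_sum_abs _ _
      _ ≤ ∑ _i : Fin N, |B| := by
          refine Finset.sum_le_sum fun i _ => ?_
          rw [abs_mul]
          calc |c i| * |f i y| ≤ 1 * |B| :=
                mul_le_mul (hc1 i) (le_trans ((hBm i).2 y) (le_abs_self B)) (abs_nonneg _)
                  zero_le_one
            _ = |B| := one_mul _
      _ = N * |B| := by simp
  -- the holes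
  have hhole : ∀ j, ∀ᵐ y ∂(mu Ω), ‖y - x j‖ ≤ r j → ι W y = - lc f c y := by
    intro j
    have h5 := hE (b' 0)
    have h6 := coe_sum (μ := mu Ω) Finset.univ c (fun i : Fin N => b i) f hfb
    have h7 := Lp.coeFn_sub (ι G) (∑ i : Fin N, c i • b i)
    filter_upwards [h5, h6, h7] with y e5 e6 e7 hy
    rw [h1, e7, Pi.sub_apply, e6, hιG, e5]
    have h8 : y ∉ Hl Ω x r := by
      intro h9
      refine h9.2 (mem_iUnion.2 ⟨j, ?_⟩)
      rw [Metric.mem_closedBall, dist_eq_norm]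
      exact hy
    rw [indicator_of_notMem h8, zero_sub]
    rfl
  obtain ⟨S, hS⟩ : ∃ S : ℝ, S = ∑ j, w j * lc f c (x j) ^ 2 := ⟨_, rfl⟩
  obtain ⟨T, hT⟩ : ∃ T : ℝ, T = (∑ j, w j * |lc f c (x j)|) *
    (κ * ∑ i, |c i| + D * Real.sqrt (volume.real Ω) * ‖ι W‖) := ⟨_, rfl⟩
  have hdu := hdua d Ω ι N J B f x w R D κ ε r η ψ g h W c S T hdom hemb hBm hD hκ hε hSys hhole
    hS hT
  have hquad := hSys.quad c
  rw [← hS] at hquad
  -- the size of the remainder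
  have hεa : ε ≤ om 0 ^ 2 / 100 := le_trans hε0.le (min_le_left _ _)
  have hεb : ε ≤ 30 * om 0 ^ 2 * q ^ 2 := le_trans hε0.le (min_le_right _ _)
  have hn0 : 0 ≤ ‖ι W‖ := norm_nonneg _
  have h33 : 33 * om 0 ^ 2 * ‖ι W‖ ^ 2 ≤ ε := by linarith
  have hιW2 : ‖ι W‖ ^ 2 ≤ 1 / 3300 := by
    have h5 : om 0 ^ 2 * (33 * ‖ι W‖ ^ 2) ≤ om 0 ^ 2 * (1 / 100) := by linarith
    have h6 := le_of_mul_le_mul_left h5 hom2
    linarith
  have hιWq : ‖ι W‖ ≤ q := by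
    have h5 : om 0 ^ 2 * (33 * ‖ι W‖ ^ 2) ≤ om 0 ^ 2 * (30 * q ^ 2) := by linarith
    have h6 := le_of_mul_le_mul_left h5 hom2
    have h7 : ‖ι W‖ ^ 2 ≤ q ^ 2 := by
      have := sq_nonneg q
      linarith
    exact (pow_le_pow_iff_left₀ hn0 hq0.le two_ne_zero).1 h7
  have hTle : T ≤ 1 / 100 := by
    have h5 : ∑ j, w j * |lc f c (x j)| ≤ P := by
      rw [hP, Finset.sum_mul]
      refine Finset.sum_le_sum fun j _ => ?_
      exact mul_le_mul (le_abs_self _) (hlc _) (abs_nonneg _) (abs_nonneg _)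
    have h6 : κ * ∑ i, |c i| + D * Real.sqrt (volume.real Ω) * ‖ι W‖ ≤
        κ * N + D * Real.sqrt (volume.real Ω) * ‖ι W‖ := by
      have := mul_le_mul_of_nonneg_left hcs hκ.le
      linarith
    have h7 : 0 ≤ κ * ∑ i, |c i| + D * Real.sqrt (volume.real Ω) * ‖ι W‖ :=
      add_nonneg (mul_nonneg hκ.le (Finset.sum_nonneg fun i _ => abs_nonneg _))
        (mul_nonneg hDv hn0)
    have h8 : T ≤ P * (κ * N + D * Real.sqrt (volume.real Ω) * ‖ι W‖) := by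
      rw [hT]
      exact mul_le_mul h5 h6 h7 hP0
    have h9 : P * N * κ ≤ 1 / 200 := by
      have h10 : P * N * κ ≤ P * N * (1 / (200 * (P * N + 1))) :=
        mul_le_mul_of_nonneg_left hκ0 hPN
      have h11 : P * N * (1 / (200 * (P * N + 1))) ≤ 1 / 200 := by
        rw [mul_one_div, div_le_div_iff₀ (by positivity) (by norm_num)]
        linarith
      linarith
    have h12 : P * (D * Real.sqrt (volume.real Ω)) * ‖ι W‖ ≤ 1 / 200 := by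
      have h13 : P * (D * Real.sqrt (volume.real Ω)) * ‖ι W‖ ≤ Q * q := by
        refine mul_le_mul ?_ hιWq hn0 hQ0.le
        rw [hQ]
        linarith
      have h14 : Q * q = 1 / 200 := by
        rw [hq]
        field_simp
      linarith
    calc T ≤ P * (κ * N + D * Real.sqrt (volume.real Ω) * ‖ι W‖) := h8
      _ = P * N * κ + P * (D * Real.sqrt (volume.real Ω)) * ‖ι W‖ := by ring
      _ ≤ 1 / 100 := by linarith
  have hST : 97 / 100 ≤ S - T := by linarith [hquad.1]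
  have hS1 : S ≤ 101 / 100 := by linarith [hquad.2]
  have hS0 : 0 ≤ S := by
    have hsq0 : 0 ≤ sq c := Finset.sum_nonneg fun i _ => sq_nonneg _
    linarith [hquad.1]
  have hfin : 97 / 100 ≤ Real.sqrt (2 * S / ε) * ‖W‖ := le_trans hST hdu
  have hfin2 : (97 / 100) ^ 2 ≤ 2 * S / ε * ‖W‖ ^ 2 := by
    have h5 := pow_le_pow_left₀ (by norm_num) hfin 2
    rw [mul_pow, Real.sq_sqrt (by positivity)] at h5
    exact h5
  have hfin3 : (97 / 100) ^ 2 * ε ≤ 2 * S * ‖W‖ ^ 2 := by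
    rw [div_mul_eq_mul_div, le_div_iff₀ hε] at hfin2
    exact hfin2
  have hW2 : 0 ≤ ‖W‖ ^ 2 := sq_nonneg _
  have hfin4 : 2 * S * ‖W‖ ^ 2 ≤ 2 * (101 / 100) * ‖W‖ ^ 2 :=
    mul_le_mul_of_nonneg_right (by linarith) hW2
  linarith

end

end Pool.Agent.BEH.H24
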