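import Pool.Agent.BEH.StmtsD
import Pool.Agent.Helper23_BEL.NSH

/-!
# Squad BEH, row NSU: Nash's inequality, the constant depends only on the dimension
-/

namespace Pool.Agent.BEH.H24

open Set Filter Topology MeasureTheory
open scoped InnerProductSpace ENNReal
open Pool.Agent.BE01 Pool.Agent.BEL

noncomputable section

theorem nsu (hA : AvuStmt) : NsuStmt := by
  intro d hd
  obtain ⟨C, hC, hA⟩ := hA d hd
  have hd' : (0:ℝ) < d := by exact_mod_cast hd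
  refine ⟨1 / (4 * (2 * C) ^ (4 / (d:ℝ))), by positivity, ?_⟩
  intro Ω ι hΩ hE G
  apply Pool.Agent.BEL.H23.nash_real (d:ℝ) C ‖ι G‖ ‖G‖ (∫ x, |ι G x| ∂(mu Ω)) hd' hC
    (norm_nonneg _) (integral_nonneg fun x => abs_nonneg _)
  intro r hr
  obtain ⟨A, -, h2, h3⟩ := hA Ω ι hΩ hE r hr
  calc ‖ι G‖ = ‖(ι G - A (ι G)) + A (ι G)‖ := by rw [sub_add_cancel]
    _ ≤ ‖ι G - A (ι G)‖ + ‖A (ι G)‖ := norm_add_le _ _
    _ ≤ r * ‖G‖ + C * r ^ (-((d:ℝ) / 2)) * ∫ x, |ι G x| ∂(mu Ω) := add_le_add (h3 G) (h2 (ι G))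

end

end Pool.Agent.BEH.H24
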